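import Pool.Agent.Lib.MP_a60258_s6.Iface

/-!
# Module GAM (helper84): the class sum computed by `gam`
-/

open Finset

namespace A602.S6.H84

open A602.S6

/-! ### Raw tools -/

theorem frc_eq {β : Type} (n : ℕ) (f : ℕ → β) : frc n f = f n := by
  cases n <;> rfl

theorem cond_ble {β : Type} (a b : ℕ) (u v : β) :
    cond (Nat.ble a b) u v = if a ≤ b then u else v := by
  by_cases h : a ≤ b
  · rw [if_pos h, Nat.ble_eq_true_of_le h]
    rfl
  · rw [if_neg h]
    have : Nat.ble a b = false := by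
      rw [Bool.eq_false_iff]
      intro h2
      exact h (Nat.le_of_ble_eq_true h2)
    rw [this]
    rfl

theorem cond_beq {β : Type} (a b : ℕ) (u v : β) :
    cond (Nat.beq a b) u v = if a = b then u else v := by
  by_cases h : a = b
  · rw [if_pos h, h, Nat.beq_refl]
    rfl
  · rw [if_neg h]
    have : Nat.beq a b = false := by
      rw [Bool.eq_false_iff]
      intro h2
      exact h (Nat.eq_of_beq_eq_true h2)
    rw [this]
    rfl

theorem fB_eq {β : Type} (dflt : β) (tab : List BL) (key : ℕ) (f : BL → β) :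
    fB dflt tab key f = (tab.find? fun b => Nat.beq b.key key).elim dflt f := by
  induction tab with
  | nil => rfl
  | cons b tab ih =>
    rw [List.find?_cons]
    change cond (Nat.beq b.key key) (f b) (fB dflt tab key f) = _
    cases h : Nat.beq b.key key
    · simpa using ih
    · rfl

theorem fS_eq {β : Type} (dflt : β) (ss : List SE) (c : ℕ) (f : SE → β) :
    fS dflt ss c f = (ss.find? fun b => Nat.beq b.code c).elim dflt f := by
  induction ss with
  | nil => rfl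
  | cons b tab ih =>
    rw [List.find?_cons]
    change cond (Nat.beq b.code c) (f b) (fS dflt tab c f) = _
    cases h : Nat.beq b.code c
    · simpa using ih
    · rfl

theorem fT_eq {β : Type} (dflt : β) (ts : List TE) (c : ℕ) (f : TE → β) :
    fT dflt ts c f = (ts.find? fun b => Nat.beq b.code c).elim dflt f := by
  induction ts with
  | nil => rfl
  | cons b tab ih =>
    rw [List.find?_cons]
    change cond (Nat.beq b.code c) (f b) (fT dflt tab c f) = _
    cases h : Nat.beq b.code c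
    · simpa using ih
    · rfl

/-! ### The right arrangements -/

/-- contribution of one right arrangement -/
def tR (bl : BL) (se : SE) (C : ℕ) (ra : RA) : ℤ :=
  if dg C ra.e ≤ dg C ra.d ∧ dg C ra.f ≤ dg C ra.e then
    fT 0 se.ts (cm (dg C ra.d) (dg C ra.e) (dg C ra.f)) fun te =>
      trm bl se te (dg C ra.y00) (dg C ra.y01) (dg C ra.y02) (dg C ra.y10) (dg C ra.y11)
        (dg C ra.y12) (dg C ra.y20) (dg C ra.y21) (dg C ra.y22)
  else 0

theorem goR_cons (bl : BL) (se : SE) (C : ℕ) (ra : RA) (rs : List RA) (acc : ℤ) :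
    goR bl se C (ra :: rs) acc =
      frc (dg C ra.d) fun m0 => frc (dg C ra.e) fun m1 => frc (dg C ra.f) fun m2 =>
      cond (Nat.ble m1 m0) (cond (Nat.ble m2 m1)
        (fT (goR bl se C rs acc) se.ts (cm m0 m1 m2) fun te =>
          frc (dg C ra.y00) fun y00 => frc (dg C ra.y01) fun y01 => frc (dg C ra.y02) fun y02 =>
          frc (dg C ra.y10) fun y10 => frc (dg C ra.y11) fun y11 => frc (dg C ra.y12) fun y12 =>
          frc (dg C ra.y20) fun y20 => frc (dg C ra.y21) fun y21 => frc (dg C ra.y22) fun y22 =>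
            goR bl se C rs (Int.sub acc (trm bl se te y00 y01 y02 y10 y11 y12 y20 y21 y22)))
        (goR bl se C rs acc)) (goR bl se C rs acc) := rfl

theorem goR_eq (bl : BL) (se : SE) (C : ℕ) (rs : List RA) :
    ∀ acc : ℤ, goR bl se C rs acc = acc - (rs.map (tR bl se C)).sum := by
  induction rs with
  | nil =>
    intro acc
    change acc = _
    simp
  | cons ra rs ih =>
    intro acc
    rw [goR_cons]
    simp only [frc_eq, cond_ble, ih, List.map_cons, List.sum_cons]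
    unfold tR
    by_cases h1 : dg C ra.e ≤ dg C ra.d
    · by_cases h2 : dg C ra.f ≤ dg C ra.e
      · rw [if_pos h1, if_pos h2, if_pos ⟨h1, h2⟩, fT_eq, fT_eq]
        cases se.ts.find? (fun b => Nat.beq b.code (cm (dg C ra.d) (dg C ra.e) (dg C ra.f))) with
        | none => simp
        | some te =>
          simp only [Option.elim]
          change acc - _ - _ = _
          ring
      · rw [if_pos h1, if_neg h2, if_neg (fun h => h2 h.2)]
        ring
    · rw [if_neg h1, if_neg (fun h => h1 h.1)]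
      ring

theorem cntR_cons (p C : ℕ) (ra : RA) (rs : List RA) :
    cntR p C (ra :: rs) = cond (Nat.beq (dg C ra.y20) p) (cond (Nat.beq (dg C ra.f) p)
      (Nat.succ (cntR p C rs)) (cntR p C rs)) (cntR p C rs) := rfl

theorem cntR_eq (p C : ℕ) (rs : List RA) : (cntR p C rs : ℤ) =
    (rs.map fun ra => if dg C ra.y20 = p ∧ dg C ra.f = p then (1 : ℤ) else 0).sum := by
  induction rs with
  | nil => rfl
  | cons ra rs ih =>
    rw [cntR_cons, cond_beq, cond_beq, List.map_cons, List.sum_cons, ← ih]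
    by_cases h1 : dg C ra.y20 = p
    · by_cases h2 : dg C ra.f = p
      · rw [if_pos h1, if_pos h2, if_pos ⟨h1, h2⟩]
        push_cast
        ring
      · rw [if_pos h1, if_neg h2, if_neg (fun h => h2 h.2)]
        ring
    · rw [if_neg h1, if_neg (fun h => h1 h.1)]
      ring

/-! ### The left arrangements -/

/-- contribution of one arrangement -/
def c2 (p N : ℕ) (tab : List BL) (C : ℕ) (la : LA) (ra : RA) : ℤ :=
  if dg C la.b ≤ dg C la.a ∧ dg C la.c ≤ dg C la.b then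
    if dg C la.a = p then -15 * (N : ℤ) + (if dg C ra.y20 = p ∧ dg C ra.f = p then 30 * (N : ℤ) else 0)
    else if 2 * dg C la.a = p ∧ 2 * dg C la.c = p then -10 * (N : ℤ)
    else -(tab.find? fun b => Nat.beq b.key (dg C la.a + (dg C la.b + dg C la.c))).elim 0 fun bl =>
      (bl.ss.find? fun b => Nat.beq b.code (cm (dg C la.a) (dg C la.b) (dg C la.c))).elim 0
        fun se => tR bl se C ra
  else 0

theorem gam_cons (p N : ℕ) (tab : List BL) (la : LA) (T : List LA) (C : ℕ) (acc : ℤ) :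
    gam p N tab (la :: T) C acc =
    frc (dg C la.a) fun m0 => frc (dg C la.b) fun m1 => frc (dg C la.c) fun m2 =>
      cond (Nat.ble m1 m0) (cond (Nat.ble m2 m1)
        (cond (Nat.beq m0 p)
          (gam p N tab T C (Int.add acc (Int.sub (Int.ofNat (Nat.mul (Nat.mul 30 N) (cntR p C la.rs)))
            (Int.ofNat (Nat.mul 90 N)))))
          (cond (Nat.beq (Nat.mul 2 m0) p) (cond (Nat.beq (Nat.mul 2 m2) p)
              (gam p N tab T C (Int.sub acc (Int.ofNat (Nat.mul 60 N))))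
              (gam p N tab T C (fB acc tab (Nat.add m0 (Nat.add m1 m2)) fun bl =>
                fS acc bl.ss (cm m0 m1 m2) fun se => goR bl se C la.rs acc)))
            (gam p N tab T C (fB acc tab (Nat.add m0 (Nat.add m1 m2)) fun bl =>
              fS acc bl.ss (cm m0 m1 m2) fun se => goR bl se C la.rs acc))))
        (gam p N tab T C acc)) (gam p N tab T C acc) := rfl

theorem sum_neg (rs : List RA) (f : RA → ℤ) : (rs.map fun r => -f r).sum = -(rs.map f).sum := by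
  induction rs with
  | nil => simp
  | cons a l ih =>
    rw [List.map_cons, List.sum_cons, List.map_cons, List.sum_cons, ih]
    ring

theorem blk_eq (tab : List BL) (key c C : ℕ) (rs : List RA) (acc : ℤ) :
    (fB acc tab key fun bl => fS acc bl.ss c fun se => goR bl se C rs acc) =
      acc + (rs.map fun ra => -(tab.find? fun b => Nat.beq b.key key).elim 0 fun bl =>
        (bl.ss.find? fun b => Nat.beq b.code c).elim 0 fun se => tR bl se C ra).sum := by
  rw [fB_eq]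
  cases tab.find? (fun b => Nat.beq b.key key) with
  | none => simp
  | some bl =>
    simp only [Option.elim]
    rw [fS_eq]
    cases bl.ss.find? (fun b => Nat.beq b.code c) with
    | none => simp
    | some se =>
      simp only [Option.elim]
      rw [goR_eq, sum_neg]
      ring

theorem sum_const6 {rs : List RA} (h : rs.length = 6) (z : ℤ) : (rs.map fun _ => z).sum = 6 * z := by
  rw [List.map_const', List.sum_replicate, h]
  simp

theorem gam_eq (p N : ℕ) (tab : List BL) (C : ℕ) (T : List LA) (hT : ∀ la ∈ T, la.rs.length = 6) :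
    ∀ acc : ℤ, gam p N tab T C acc =
      acc + (T.map fun la => (la.rs.map (c2 p N tab C la)).sum).sum := by
  induction T with
  | nil =>
    intro acc
    change acc = _
    simp
  | cons la T ih =>
    intro acc
    have hla : la.rs.length = 6 := hT la (by simp)
    have ih' := ih (fun la h => hT la (by simp [h]))
    rw [gam_cons, List.map_cons, List.sum_cons]
    simp only [frc_eq, cond_ble, cond_beq, ih', blk_eq]
    by_cases h1 : dg C la.b ≤ dg C la.a
    · by_cases h2 : dg C la.c ≤ dg C la.b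
      · rw [if_pos h1, if_pos h2]
        by_cases h3 : dg C la.a = p
        · rw [if_pos h3]
          have e1 : (la.rs.map (c2 p N tab C la)).sum = 30 * (N : ℤ) * (cntR p C la.rs : ℤ) -
              90 * N := by
            have : (la.rs.map (c2 p N tab C la)) = la.rs.map (fun ra =>
                (fun _ => -15 * (N : ℤ)) ra + (30 * (N : ℤ)) *
                  (fun ra : RA => if dg C ra.y20 = p ∧ dg C ra.f = p then (1 : ℤ) else 0) ra) := by
              apply List.map_congr_left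
              intro ra _
              unfold c2
              rw [if_pos ⟨h1, h2⟩, if_pos h3]
              by_cases h6 : dg C ra.y20 = p ∧ dg C ra.f = p
              · simp only [if_pos h6]
                ring
              · simp only [if_neg h6]
                ring
            rw [this, List.sum_map_add, sum_const6 hla, List.sum_map_mul_left, ← cntR_eq]
            ring
          rw [e1]
          change acc + (((30 * N * cntR p C la.rs : ℕ) : ℤ) - ((90 * N : ℕ) : ℤ)) + _ = _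
          push_cast
          ring
        · rw [if_neg h3]
          by_cases h4 : 2 * dg C la.a = p
          · by_cases h5 : 2 * dg C la.c = p
            · rw [if_pos (show Nat.mul 2 (dg C la.a) = p from h4),
                if_pos (show Nat.mul 2 (dg C la.c) = p from h5)]
              have e1 : (la.rs.map (c2 p N tab C la)).sum = -60 * (N : ℤ) := by
                have : (la.rs.map (c2 p N tab C la)) = la.rs.map (fun _ => -10 * (N : ℤ)) := by
                  apply List.map_congr_left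
                  intro ra _
                  unfold c2
                  rw [if_pos ⟨h1, h2⟩, if_neg h3, if_pos ⟨h4, h5⟩]
                rw [this, sum_const6 hla]
                ring
              rw [e1]
              change acc - ((60 * N : ℕ) : ℤ) + _ = _
              push_cast
              ring
            · rw [if_pos (show Nat.mul 2 (dg C la.a) = p from h4),
                if_neg (show ¬ Nat.mul 2 (dg C la.c) = p from h5)]
              have e1 : (la.rs.map (c2 p N tab C la)) = la.rs.map (fun ra =>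
                  -(tab.find? fun b => Nat.beq b.key
                    (Nat.add (dg C la.a) (Nat.add (dg C la.b) (dg C la.c)))).elim 0 fun bl =>
                  (bl.ss.find? fun b => Nat.beq b.code
                    (cm (dg C la.a) (dg C la.b) (dg C la.c))).elim 0 fun se => tR bl se C ra) := by
                apply List.map_congr_left
                intro ra _
                unfold c2
                rw [if_pos ⟨h1, h2⟩, if_neg h3, if_neg (fun h => h5 h.2)]
                rfl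
              rw [e1]
              ring
          · rw [if_neg (show ¬ Nat.mul 2 (dg C la.a) = p from h4)]
            have e1 : (la.rs.map (c2 p N tab C la)) = la.rs.map (fun ra =>
                -(tab.find? fun b => Nat.beq b.key
                  (Nat.add (dg C la.a) (Nat.add (dg C la.b) (dg C la.c)))).elim 0 fun bl =>
                (bl.ss.find? fun b => Nat.beq b.code
                  (cm (dg C la.a) (dg C la.b) (dg C la.c))).elim 0 fun se => tR bl se C ra) := by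
              apply List.map_congr_left
              intro ra _
              unfold c2
              rw [if_pos ⟨h1, h2⟩, if_neg h3, if_neg (fun h => h4 h.1)]
              rfl
            rw [e1]
            ring
      · rw [if_pos h1, if_neg h2]
        have e1 : (la.rs.map (c2 p N tab C la)).sum = 0 := by
          have : (la.rs.map (c2 p N tab C la)) = la.rs.map (fun _ => (0 : ℤ)) := by
            apply List.map_congr_left
            intro ra _
            unfold c2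
            rw [if_neg (fun h => h2 h.2)]
          rw [this]
          simp
        rw [e1]
        ring
    · rw [if_neg h1]
      have e1 : (la.rs.map (c2 p N tab C la)).sum = 0 := by
        have : (la.rs.map (c2 p N tab C la)) = la.rs.map (fun _ => (0 : ℤ)) := by
          apply List.map_congr_left
          intro ra _
          unfold c2
          rw [if_neg (fun h => h1 h.1)]
        rw [this]
        simp
      rw [e1]
      ring

/-! ### The table as a comprehension -/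

/-- all triples of distinct vertices -/
def L3 : List (Fin 6 × Fin 6 × Fin 6) :=
  ((List.finRange 6).flatMap fun a => (List.finRange 6).flatMap fun b =>
    (List.finRange 6).map fun c => (a, b, c)).filter fun t => t.1 ≠ t.2.1 ∧ t.1 ≠ t.2.2 ∧ t.2.1 ≠ t.2.2

/-- the two triples are disjoint -/
def Dj (t u : Fin 6 × Fin 6 × Fin 6) : Prop :=
  (u.1 ≠ t.1 ∧ u.1 ≠ t.2.1 ∧ u.1 ≠ t.2.2) ∧ (u.2.1 ≠ t.1 ∧ u.2.1 ≠ t.2.1 ∧ u.2.1 ≠ t.2.2) ∧
    (u.2.2 ≠ t.1 ∧ u.2.2 ≠ t.2.1 ∧ u.2.2 ≠ t.2.2)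

instance (t u : Fin 6 × Fin 6 × Fin 6) : Decidable (Dj t u) := by
  unfold Dj
  infer_instance

/-- the triples disjoint from `t` -/
def R3 (t : Fin 6 × Fin 6 × Fin 6) : List (Fin 6 × Fin 6 × Fin 6) := L3.filter fun u => Dj t u

/-- right arrangement -/
def mkRA (t u : Fin 6 × Fin 6 × Fin 6) : RA :=
  ⟨KK u.1 u.2.1, KK u.1 u.2.2, KK u.2.1 u.2.2, KK t.1 u.1, KK t.1 u.2.1, KK t.1 u.2.2,
    KK t.2.1 u.1, KK t.2.1 u.2.1, KK t.2.1 u.2.2, KK t.2.2 u.1, KK t.2.2 u.2.1, KK t.2.2 u.2.2⟩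

/-- left arrangement -/
def mkLA (t : Fin 6 × Fin 6 × Fin 6) : LA :=
  ⟨KK t.1 t.2.1, KK t.1 t.2.2, KK t.2.1 t.2.2, (R3 t).map (mkRA t)⟩

/-- numbers of a right arrangement -/
def eRA (r : RA) : List ℕ := [r.d, r.e, r.f, r.y00, r.y01, r.y02, r.y10, r.y11, r.y12, r.y20, r.y21, r.y22]

/-- numbers of a left arrangement -/
def eLA (l : LA) : List (List ℕ) := [l.a, l.b, l.c] :: l.rs.map eRA

theorem eRA_inj : Function.Injective eRA := by
  rintro ⟨⟩ ⟨⟩ h
  simp only [eRA, List.cons.injEq, and_true] at h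
  obtain ⟨h1, h2, h3, h4, h5, h6, h7, h8, h9, h10, h11, h12⟩ := h
  subst h1 h2 h3 h4 h5 h6 h7 h8 h9 h10 h11 h12
  rfl

theorem eLA_inj : Function.Injective eLA := by
  rintro ⟨a, b, c, rs⟩ ⟨a', b', c', rs'⟩ h
  simp only [eLA, List.cons.injEq, and_true] at h
  obtain ⟨⟨h1, h2, h3⟩, h4⟩ := h
  have h5 := List.map_injective_iff.2 eRA_inj h4
  subst h1 h2 h3 h5
  rfl

theorem TB_enc : TB.map eLA = (L3.map mkLA).map eLA := by decide +kernel

theorem TB_eq : TB = L3.map mkLA := List.map_injective_iff.2 eLA_inj TB_enc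

theorem R3_len : ∀ t ∈ L3, (R3 t).length = 6 := by decide +kernel

theorem L3_nodup : L3.Nodup := by decide +kernel

theorem mem_L3 (t : Fin 6 × Fin 6 × Fin 6) :
    t ∈ L3 ↔ t.1 ≠ t.2.1 ∧ t.1 ≠ t.2.2 ∧ t.2.1 ≠ t.2.2 := by
  obtain ⟨a, b, c⟩ := t
  unfold L3
  rw [List.mem_filter]
  simp

theorem mem_R3 (t u : Fin 6 × Fin 6 × Fin 6) : u ∈ R3 t ↔ u ∈ L3 ∧ Dj t u := by
  unfold R3
  rw [List.mem_filter]
  simp

theorem R3_nodup (t : Fin 6 × Fin 6 × Fin 6) : (R3 t).Nodup := L3_nodup.filter _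

/-- the arrangement of a permutation -/
def arr (σ : Equiv.Perm (Fin 6)) : (_ : Fin 6 × Fin 6 × Fin 6) × (Fin 6 × Fin 6 × Fin 6) :=
  ⟨(σ 0, σ 1, σ 2), (σ 3, σ 4, σ 5)⟩

set_option linter.constructorNameAsVariable false in
theorem sum_perm (G : Fin 6 × Fin 6 × Fin 6 → Fin 6 × Fin 6 × Fin 6 → ℤ) :
    ∑ σ : Equiv.Perm (Fin 6), G (σ 0, σ 1, σ 2) (σ 3, σ 4, σ 5) =
      (L3.map fun t => ((R3 t).map fun u => G t u).sum).sum := by
  have e1 : (L3.map fun t => ((R3 t).map fun u => G t u).sum).sum =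
      ∑ t ∈ L3.toFinset, ∑ u ∈ (R3 t).toFinset, G t u := by
    rw [List.sum_toFinset _ L3_nodup]
    refine congrArg List.sum (List.map_congr_left fun t _ => ?_)
    rw [List.sum_toFinset _ (R3_nodup t)]
  rw [e1, Finset.sum_sigma']
  apply Finset.sum_nbij arr
  · intro σ _
    have hne : ∀ i j : Fin 6, i ≠ j → σ i ≠ σ j := fun i j h => σ.injective.ne h
    rw [Finset.mem_sigma, List.mem_toFinset, List.mem_toFinset, mem_R3, mem_L3, mem_L3]
    refine ⟨⟨?_, ?_, ?_⟩, ⟨?_, ?_, ?_⟩, ⟨?_, ?_, ?_⟩, ⟨?_, ?_, ?_⟩, ⟨?_, ?_, ?_⟩⟩ <;>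
      exact hne _ _ (by decide)
  · intro σ _ τ _ h
    unfold arr at h
    simp only [Sigma.mk.injEq, heq_eq_eq, Prod.mk.injEq] at h
    obtain ⟨⟨h0, h1, h2⟩, h3, h4, h5⟩ := h
    apply Equiv.ext
    intro i
    fin_cases i
    · exact h0
    · exact h1
    · exact h2
    · exact h3
    · exact h4
    · exact h5
  · rintro ⟨⟨a, b, c⟩, ⟨d, e, f⟩⟩ hq
    rw [Finset.mem_coe, Finset.mem_sigma, List.mem_toFinset, List.mem_toFinset, mem_R3, mem_L3,
      mem_L3] at hq
    obtain ⟨⟨h1, h2, h3⟩, ⟨h4, h5, h6⟩, ⟨h7, h8, h9⟩, ⟨h10, h11, h12⟩, ⟨h13, h14, h15⟩⟩ := hq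
    simp only at h1 h2 h3 h4 h5 h6 h7 h8 h9 h10 h11 h12 h13 h14 h15
    have hinj : Function.Injective (![a, b, c, d, e, f] : Fin 6 → Fin 6) := by
      intro i j hij
      fin_cases i <;> fin_cases j <;> first
        | rfl
        | (exfalso
           simp only [Fin.zero_eta, Fin.mk_one, Fin.isValue, Fin.reduceFinMk] at hij
           first
             | exact h1 hij | exact h2 hij | exact h3 hij | exact h4 hij | exact h5 hij
             | exact h6 hij | exact h7 hij.symm | exact h8 hij.symm | exact h9 hij.symm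
             | exact h10 hij.symm | exact h11 hij.symm | exact h12 hij.symm | exact h13 hij.symm
             | exact h14 hij.symm | exact h15 hij.symm
             | exact h1 hij.symm | exact h2 hij.symm | exact h3 hij.symm | exact h4 hij.symm
             | exact h5 hij.symm | exact h6 hij.symm | exact h7 hij | exact h8 hij
             | exact h9 hij | exact h10 hij | exact h11 hij | exact h12 hij | exact h13 hij
             | exact h14 hij | exact h15 hij)
    refine ⟨Equiv.ofBijective _ (Finite.injective_iff_bijective.1 hinj), Finset.mem_coe.2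
      (Finset.mem_univ _), ?_⟩
    rfl
  · intro σ _
    rfl

/-! ### Digits -/

theorem code_eq (x : Pr → ℕ) : code x =
    x (.inl 0) * 16 ^ 14 + x (.inl 1) * 16 ^ 13 + x (.inr (.inr (0, 0))) * 16 ^ 12 +
    x (.inr (.inr (0, 1))) * 16 ^ 11 + x (.inr (.inr (0, 2))) * 16 ^ 10 + x (.inl 2) * 16 ^ 9 +
    x (.inr (.inr (1, 0))) * 16 ^ 8 + x (.inr (.inr (1, 1))) * 16 ^ 7 +
    x (.inr (.inr (1, 2))) * 16 ^ 6 + x (.inr (.inr (2, 0))) * 16 ^ 5 +
    x (.inr (.inr (2, 1))) * 16 ^ 4 + x (.inr (.inr (2, 2))) * 16 ^ 3 +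
    x (.inr (.inl 0)) * 16 ^ 2 + x (.inr (.inl 1)) * 16 ^ 1 + x (.inr (.inl 2)) := by
  unfold code
  rw [Fintype.sum_sum_type, Fintype.sum_sum_type, Fintype.sum_prod_type]
  simp only [Fin.sum_univ_three]
  have e1 : posP (.inl 0) = 14 := rfl
  have e2 : posP (.inl 1) = 13 := rfl
  have e3 : posP (.inl 2) = 9 := rfl
  have e4 : posP (.inr (.inl 0)) = 2 := rfl
  have e5 : posP (.inr (.inl 1)) = 1 := rfl
  have e6 : posP (.inr (.inl 2)) = 0 := rfl
  have e7 : posP (.inr (.inr (0, 0))) = 12 := rfl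
  have e8 : posP (.inr (.inr (0, 1))) = 11 := rfl
  have e9 : posP (.inr (.inr (0, 2))) = 10 := rfl
  have e10 : posP (.inr (.inr (1, 0))) = 8 := rfl
  have e11 : posP (.inr (.inr (1, 1))) = 7 := rfl
  have e12 : posP (.inr (.inr (1, 2))) = 6 := rfl
  have e13 : posP (.inr (.inr (2, 0))) = 5 := rfl
  have e14 : posP (.inr (.inr (2, 1))) = 4 := rfl
  have e15 : posP (.inr (.inr (2, 2))) = 3 := rfl
  rw [e1, e2, e3, e4, e5, e6, e7, e8, e9, e10, e11, e12, e13, e14, e15]
  ring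

theorem dg_aux (C k d lo hi : ℕ) (h : C = lo + 16 ^ k * (d + 16 * hi)) (hlo : lo < 16 ^ k)
    (hd : d ≤ 15) : dg C (16 ^ k) = d := by
  change C / 16 ^ k % 16 = d
  have hpos : 0 < 16 ^ k := Nat.pow_pos (by norm_num)
  rw [h, Nat.add_mul_div_left _ _ hpos, Nat.div_eq_of_lt hlo, zero_add, Nat.add_mul_mod_self_left]
  exact Nat.mod_eq_of_lt (by omega)

theorem dg_code (x : Pr → ℕ) (hx : ∀ e, x e ≤ 15) (e : Pr) : dg (code x) (16 ^ posP e) = x e := by
  rw [code_eq]
  have q14 := hx (.inl 0)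
  have q13 := hx (.inl 1)
  have q12 := hx (.inr (.inr (0, 0)))
  have q11 := hx (.inr (.inr (0, 1)))
  have q10 := hx (.inr (.inr (0, 2)))
  have q9 := hx (.inl 2)
  have q8 := hx (.inr (.inr (1, 0)))
  have q7 := hx (.inr (.inr (1, 1)))
  have q6 := hx (.inr (.inr (1, 2)))
  have q5 := hx (.inr (.inr (2, 0)))
  have q4 := hx (.inr (.inr (2, 1)))
  have q3 := hx (.inr (.inr (2, 2)))
  have q2 := hx (.inr (.inl 0))
  have q1 := hx (.inr (.inl 1))
  have q0 := hx (.inr (.inl 2))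
  generalize h14 : x (.inl 0) = a14 at *
  generalize h13 : x (.inl 1) = a13 at *
  generalize h12 : x (.inr (.inr (0, 0))) = a12 at *
  generalize h11 : x (.inr (.inr (0, 1))) = a11 at *
  generalize h10 : x (.inr (.inr (0, 2))) = a10 at *
  generalize h9 : x (.inl 2) = a9 at *
  generalize h8 : x (.inr (.inr (1, 0))) = a8 at *
  generalize h7 : x (.inr (.inr (1, 1))) = a7 at *
  generalize h6 : x (.inr (.inr (1, 2))) = a6 at *
  generalize h5 : x (.inr (.inr (2, 0))) = a5 at *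
  generalize h4 : x (.inr (.inr (2, 1))) = a4 at *
  generalize h3 : x (.inr (.inr (2, 2))) = a3 at *
  generalize h2 : x (.inr (.inl 0)) = a2 at *
  generalize h1 : x (.inr (.inl 1)) = a1 at *
  generalize h0 : x (.inr (.inl 2)) = a0 at *
  rcases e with i | i | ⟨i, j⟩
  · fin_cases i
    · exact (dg_aux _ 14 a14 (a13 * 16 ^ 13 + a12 * 16 ^ 12 + a11 * 16 ^ 11 + a10 * 16 ^ 10 + a9 * 16 ^ 9 + a8 * 16 ^ 8 + a7 * 16 ^ 7 + a6 * 16 ^ 6 + a5 * 16 ^ 5 + a4 * 16 ^ 4 + a3 * 16 ^ 3 + a2 * 16 ^ 2 + a1 * 16 ^ 1 + a0 * 16 ^ 0)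
        (0) (by ring) (by norm_num; omega) q14).trans h14.symm
    · exact (dg_aux _ 13 a13 (a12 * 16 ^ 12 + a11 * 16 ^ 11 + a10 * 16 ^ 10 + a9 * 16 ^ 9 + a8 * 16 ^ 8 + a7 * 16 ^ 7 + a6 * 16 ^ 6 + a5 * 16 ^ 5 + a4 * 16 ^ 4 + a3 * 16 ^ 3 + a2 * 16 ^ 2 + a1 * 16 ^ 1 + a0 * 16 ^ 0)
        (a14 * 16 ^ 0) (by ring) (by norm_num; omega) q13).trans h13.symm
    · exact (dg_aux _ 9 a9 (a8 * 16 ^ 8 + a7 * 16 ^ 7 + a6 * 16 ^ 6 + a5 * 16 ^ 5 + a4 * 16 ^ 4 + a3 * 16 ^ 3 + a2 * 16 ^ 2 + a1 * 16 ^ 1 + a0 * 16 ^ 0)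
        (a14 * 16 ^ 4 + a13 * 16 ^ 3 + a12 * 16 ^ 2 + a11 * 16 ^ 1 + a10 * 16 ^ 0) (by ring) (by norm_num; omega) q9).trans h9.symm
  · fin_cases i
    · exact (dg_aux _ 2 a2 (a1 * 16 ^ 1 + a0 * 16 ^ 0)
        (a14 * 16 ^ 11 + a13 * 16 ^ 10 + a12 * 16 ^ 9 + a11 * 16 ^ 8 + a10 * 16 ^ 7 + a9 * 16 ^ 6 + a8 * 16 ^ 5 + a7 * 16 ^ 4 + a6 * 16 ^ 3 + a5 * 16 ^ 2 + a4 * 16 ^ 1 + a3 * 16 ^ 0) (by ring) (by norm_num; omega) q2).trans h2.symm
    · exact (dg_aux _ 1 a1 (a0 * 16 ^ 0)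
        (a14 * 16 ^ 12 + a13 * 16 ^ 11 + a12 * 16 ^ 10 + a11 * 16 ^ 9 + a10 * 16 ^ 8 + a9 * 16 ^ 7 + a8 * 16 ^ 6 + a7 * 16 ^ 5 + a6 * 16 ^ 4 + a5 * 16 ^ 3 + a4 * 16 ^ 2 + a3 * 16 ^ 1 + a2 * 16 ^ 0) (by ring) (by norm_num; omega) q1).trans h1.symm
    · exact (dg_aux _ 0 a0 (0)
        (a14 * 16 ^ 13 + a13 * 16 ^ 12 + a12 * 16 ^ 11 + a11 * 16 ^ 10 + a10 * 16 ^ 9 + a9 * 16 ^ 8 + a8 * 16 ^ 7 + a7 * 16 ^ 6 + a6 * 16 ^ 5 + a5 * 16 ^ 4 + a4 * 16 ^ 3 + a3 * 16 ^ 2 + a2 * 16 ^ 1 + a1 * 16 ^ 0) (by ring) (by norm_num) q0).trans h0.symm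
  · fin_cases i <;> fin_cases j
    · exact (dg_aux _ 12 a12 (a11 * 16 ^ 11 + a10 * 16 ^ 10 + a9 * 16 ^ 9 + a8 * 16 ^ 8 + a7 * 16 ^ 7 + a6 * 16 ^ 6 + a5 * 16 ^ 5 + a4 * 16 ^ 4 + a3 * 16 ^ 3 + a2 * 16 ^ 2 + a1 * 16 ^ 1 + a0 * 16 ^ 0)
        (a14 * 16 ^ 1 + a13 * 16 ^ 0) (by ring) (by norm_num; omega) q12).trans h12.symm
    · exact (dg_aux _ 11 a11 (a10 * 16 ^ 10 + a9 * 16 ^ 9 + a8 * 16 ^ 8 + a7 * 16 ^ 7 + a6 * 16 ^ 6 + a5 * 16 ^ 5 + a4 * 16 ^ 4 + a3 * 16 ^ 3 + a2 * 16 ^ 2 + a1 * 16 ^ 1 + a0 * 16 ^ 0)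
        (a14 * 16 ^ 2 + a13 * 16 ^ 1 + a12 * 16 ^ 0) (by ring) (by norm_num; omega) q11).trans h11.symm
    · exact (dg_aux _ 10 a10 (a9 * 16 ^ 9 + a8 * 16 ^ 8 + a7 * 16 ^ 7 + a6 * 16 ^ 6 + a5 * 16 ^ 5 + a4 * 16 ^ 4 + a3 * 16 ^ 3 + a2 * 16 ^ 2 + a1 * 16 ^ 1 + a0 * 16 ^ 0)
        (a14 * 16 ^ 3 + a13 * 16 ^ 2 + a12 * 16 ^ 1 + a11 * 16 ^ 0) (by ring) (by norm_num; omega) q10).trans h10.symm
    · exact (dg_aux _ 8 a8 (a7 * 16 ^ 7 + a6 * 16 ^ 6 + a5 * 16 ^ 5 + a4 * 16 ^ 4 + a3 * 16 ^ 3 + a2 * 16 ^ 2 + a1 * 16 ^ 1 + a0 * 16 ^ 0)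
        (a14 * 16 ^ 5 + a13 * 16 ^ 4 + a12 * 16 ^ 3 + a11 * 16 ^ 2 + a10 * 16 ^ 1 + a9 * 16 ^ 0) (by ring) (by norm_num; omega) q8).trans h8.symm
    · exact (dg_aux _ 7 a7 (a6 * 16 ^ 6 + a5 * 16 ^ 5 + a4 * 16 ^ 4 + a3 * 16 ^ 3 + a2 * 16 ^ 2 + a1 * 16 ^ 1 + a0 * 16 ^ 0)
        (a14 * 16 ^ 6 + a13 * 16 ^ 5 + a12 * 16 ^ 4 + a11 * 16 ^ 3 + a10 * 16 ^ 2 + a9 * 16 ^ 1 + a8 * 16 ^ 0) (by ring) (by norm_num; omega) q7).trans h7.symm
    · exact (dg_aux _ 6 a6 (a5 * 16 ^ 5 + a4 * 16 ^ 4 + a3 * 16 ^ 3 + a2 * 16 ^ 2 + a1 * 16 ^ 1 + a0 * 16 ^ 0)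
        (a14 * 16 ^ 7 + a13 * 16 ^ 6 + a12 * 16 ^ 5 + a11 * 16 ^ 4 + a10 * 16 ^ 3 + a9 * 16 ^ 2 + a8 * 16 ^ 1 + a7 * 16 ^ 0) (by ring) (by norm_num; omega) q6).trans h6.symm
    · exact (dg_aux _ 5 a5 (a4 * 16 ^ 4 + a3 * 16 ^ 3 + a2 * 16 ^ 2 + a1 * 16 ^ 1 + a0 * 16 ^ 0)
        (a14 * 16 ^ 8 + a13 * 16 ^ 7 + a12 * 16 ^ 6 + a11 * 16 ^ 5 + a10 * 16 ^ 4 + a9 * 16 ^ 3 + a8 * 16 ^ 2 + a7 * 16 ^ 1 + a6 * 16 ^ 0) (by ring) (by norm_num; omega) q5).trans h5.symm
    · exact (dg_aux _ 4 a4 (a3 * 16 ^ 3 + a2 * 16 ^ 2 + a1 * 16 ^ 1 + a0 * 16 ^ 0)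
        (a14 * 16 ^ 9 + a13 * 16 ^ 8 + a12 * 16 ^ 7 + a11 * 16 ^ 6 + a10 * 16 ^ 5 + a9 * 16 ^ 4 + a8 * 16 ^ 3 + a7 * 16 ^ 2 + a6 * 16 ^ 1 + a5 * 16 ^ 0) (by ring) (by norm_num; omega) q4).trans h4.symm
    · exact (dg_aux _ 3 a3 (a2 * 16 ^ 2 + a1 * 16 ^ 1 + a0 * 16 ^ 0)
        (a14 * 16 ^ 10 + a13 * 16 ^ 9 + a12 * 16 ^ 8 + a11 * 16 ^ 7 + a10 * 16 ^ 6 + a9 * 16 ^ 5 + a8 * 16 ^ 4 + a7 * 16 ^ 3 + a6 * 16 ^ 2 + a5 * 16 ^ 1 + a4 * 16 ^ 0) (by ring) (by norm_num; omega) q3).trans h3.symm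

theorem dg_KK (x : Pr → ℕ) (hx : ∀ e, x e ≤ 15) (u v : Fin 6) : dg (code x) (KK u v) = x (pr u v) :=
  dg_code x hx (pr u v)

/-! ### The value of one arrangement -/

theorem val_eq (p N : ℕ) (tab : List BL) (y : Pr → ℕ) (C : ℕ) (la : LA) (ra : RA)
    (h1 : dg C la.a = y (.inl 0)) (h2 : dg C la.b = y (.inl 1)) (h3 : dg C la.c = y (.inl 2))
    (h4 : dg C ra.d = y (.inr (.inl 0))) (h5 : dg C ra.e = y (.inr (.inl 1)))
    (h6 : dg C ra.f = y (.inr (.inl 2))) (k00 : dg C ra.y00 = y (.inr (.inr (0, 0))))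
    (k01 : dg C ra.y01 = y (.inr (.inr (0, 1)))) (k02 : dg C ra.y02 = y (.inr (.inr (0, 2))))
    (k10 : dg C ra.y10 = y (.inr (.inr (1, 0)))) (k11 : dg C ra.y11 = y (.inr (.inr (1, 1))))
    (k12 : dg C ra.y12 = y (.inr (.inr (1, 2)))) (k20 : dg C ra.y20 = y (.inr (.inr (2, 0))))
    (k21 : dg C ra.y21 = y (.inr (.inr (2, 1)))) (k22 : dg C ra.y22 = y (.inr (.inr (2, 2)))) :
    (N : ℤ) * cc p y - Bf p tab y = N + c2 p N tab C la ra := by
  unfold cc Bf lkp c2 tR yy
  rw [h1, h2, h3, h4, h5, h6, k00, k01, k02, k10, k11, k12, k20, k21, k22, fB_eq]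
  simp only [fS_eq]
  by_cases c1 : y (.inl 1) ≤ y (.inl 0) ∧ y (.inl 2) ≤ y (.inl 1)
  · rw [if_pos c1, if_pos c1]
    by_cases c3 : y (.inl 0) = p
    · have hn : ¬ (y (.inl 1) ≤ y (.inl 0) ∧ y (.inl 2) ≤ y (.inl 1) ∧ y (.inl 0) ≠ p ∧
          ¬ (2 * y (.inl 0) = p ∧ 2 * y (.inl 2) = p) ∧ y (.inr (.inl 1)) ≤ y (.inr (.inl 0)) ∧
          y (.inr (.inl 2)) ≤ y (.inr (.inl 1))) := fun h => h.2.2.1 c3
      rw [if_pos c3, if_pos c3, if_neg hn]
      by_cases c4 : y (.inr (.inr (2, 0))) = p ∧ y (.inr (.inl 2)) = p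
      · rw [if_pos c4, if_pos c4]
        ring
      · rw [if_neg c4, if_neg c4]
        ring
    · rw [if_neg c3, if_neg c3]
      by_cases c5 : 2 * y (.inl 0) = p ∧ 2 * y (.inl 2) = p
      · have hn : ¬ (y (.inl 1) ≤ y (.inl 0) ∧ y (.inl 2) ≤ y (.inl 1) ∧ y (.inl 0) ≠ p ∧
            ¬ (2 * y (.inl 0) = p ∧ 2 * y (.inl 2) = p) ∧
            y (.inr (.inl 1)) ≤ y (.inr (.inl 0)) ∧
            y (.inr (.inl 2)) ≤ y (.inr (.inl 1))) := fun h => h.2.2.2.1 c5
        rw [if_pos c5, if_pos c5, if_neg hn]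
        ring
      · rw [if_neg c5, if_neg c5]
        by_cases c6 : y (.inr (.inl 1)) ≤ y (.inr (.inl 0)) ∧
            y (.inr (.inl 2)) ≤ y (.inr (.inl 1))
        · rw [if_pos ⟨c1.1, c1.2, c3, c5, c6.1, c6.2⟩]
          simp only [if_pos c6]
          ring
        · rw [if_neg (fun h => c6 h.2.2.2.2)]
          simp only [if_neg c6]
          cases tab.find? (fun b => Nat.beq b.key
              (y (.inl 0) + (y (.inl 1) + y (.inl 2)))) with
          | none => simp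
          | some bl =>
            simp only [Option.elim]
            cases bl.ss.find? (fun b => Nat.beq b.code
                (cm (y (.inl 0)) (y (.inl 1)) (y (.inl 2)))) with
            | none => simp
            | some se => simp
  · rw [if_neg c1, if_neg c1, if_neg (fun h => c1 ⟨h.1, h.2.1⟩)]
    ring

/-- **GAM.** -/
theorem gam : GamStatement := by
  intro p N tab x hx
  have hlen : ∀ la ∈ TB, la.rs.length = 6 := by
    intro la hla
    rw [TB_eq, List.mem_map] at hla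
    obtain ⟨t, ht, rfl⟩ := hla
    change ((R3 t).map (mkRA t)).length = 6
    rw [List.length_map]
    exact R3_len t ht
  rw [gam_eq p N tab (code x) TB hlen]
  have e1 : (TB.map fun la => (la.rs.map (c2 p N tab (code x) la)).sum).sum =
      (L3.map fun t => ((R3 t).map fun u => c2 p N tab (code x) (mkLA t) (mkRA t u)).sum).sum := by
    rw [TB_eq, List.map_map]
    refine congrArg List.sum (List.map_congr_left fun t _ => ?_)
    change (((R3 t).map (mkRA t)).map (c2 p N tab (code x) (mkLA t))).sum = _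
    rw [List.map_map]
    rfl
  rw [e1, ← sum_perm]
  have e2 : ∀ σ : Equiv.Perm (Fin 6), (N : ℤ) * cc p (act σ x) - Bf p tab (act σ x) =
      N + c2 p N tab (code x) (mkLA (σ 0, σ 1, σ 2)) (mkRA (σ 0, σ 1, σ 2) (σ 3, σ 4, σ 5)) := by
    intro σ
    apply val_eq <;> exact dg_KK x hx _ _
  rw [Finset.sum_congr rfl fun σ _ => e2 σ, Finset.sum_add_distrib, Finset.sum_const,
    Finset.card_univ, Fintype.card_perm, Fintype.card_fin]
  have e3 : Nat.factorial 6 = 720 := rfl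
  have e4 : (Int.ofNat (Nat.mul 720 N) : ℤ) = 720 * N := by
    change ((720 * N : ℕ) : ℤ) = _
    push_cast
    ring
  rw [e3, e4, nsmul_eq_mul]
  push_cast
  ring

end A602.S6.H84
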